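import Pool.Agent.Helper70.SK.Stmts
import Pool.Agent.Helper70.SK.Lib

set_option autoImplicit false

namespace Pool.Agent.Helper70.SK

open Finset Pool.Agent.Helper70.DK

theorem st_SUPP : ST_SUPP := by
  classical
  intro Ω α S γ v G D0 hS hG hD0
  have hS0 : (0 : ℝ) < S.card := by exact_mod_cast hS.card_pos
  have hsub : ∀ ω ∈ S, (fib S v (v ω)).image γ ⊆ G := by
    intro ω _ g hg
    rw [Finset.mem_image] at hg
    obtain ⟨ω', h1, h2⟩ := hg
    rw [← h2]
    exact hG ω' (Finset.mem_of_mem_filter _ h1)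
  have hpos : ∀ ω ∈ S, 0 < (((fib S v (v ω)).image γ).card : ℝ) := by
    intro ω hω
    have : γ ω ∈ (fib S v (v ω)).image γ :=
      Finset.mem_image_of_mem _ (Finset.mem_filter.2 ⟨hω, rfl⟩)
    exact_mod_cast Finset.card_pos.2 ⟨_, this⟩
  have hle : ∀ ω ∈ S, (((fib S v (v ω)).image γ).card : ℝ) ≤ G.card := by
    intro ω hω
    exact_mod_cast Finset.card_le_card (hsub ω hω)
  have hcent : (S.card : ℝ) * cent S γ v ≤
      ∑ ω ∈ S, Real.log (((fib S v (v ω)).image γ).card : ℝ) := by
    rw [st_E3 Ω ℕ α S γ v (S.image v) (fun x hx => Finset.mem_image_of_mem _ hx),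
      Finset.mul_sum,
      Finset.sum_comp (fun a => Real.log (((fib S v a).image γ).card : ℝ)) v]
    apply Finset.sum_le_sum
    intro a _
    have h1 : (S.card : ℝ) * (((fib S v a).card : ℝ) / S.card * ent (fib S v a) γ) =
        ((fib S v a).card : ℝ) * ent (fib S v a) γ := by
      field_simp
    have h2 : ent (fib S v a) γ ≤ Real.log (((fib S v a).image γ).card : ℝ) :=
      ent_card (fib S v a) γ _ (fun x hx => Finset.mem_image_of_mem _ hx)
    rw [h1, nsmul_eq_mul]
    have h3 : ((fib S v a).card : ℝ) = ((S.filter (fun x => v x = a)).card : ℝ) := by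
      congr 2
    rw [h3]
    exact mul_le_mul_of_nonneg_left h2 (by positivity)
  have hbad : ((S.filter (fun ω => (((fib S v (v ω)).image γ).card : ℝ) <
      Real.exp (-D0) * G.card)).card : ℝ) * D0 ≤
      ∑ ω ∈ S, (Real.log G.card - Real.log (((fib S v (v ω)).image γ).card : ℝ)) := by
    rw [← nsmul_eq_mul, ← Finset.sum_const]
    refine le_trans ?_ (Finset.sum_le_sum_of_subset_of_nonneg
      (Finset.filter_subset (fun ω => (((fib S v (v ω)).image γ).card : ℝ) <
        Real.exp (-D0) * G.card) S) ?_)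
    · apply Finset.sum_le_sum
      intro ω hω
      rw [Finset.mem_filter] at hω
      have h1 := hpos ω hω.1
      have h2 := hle ω hω.1
      have h3 : Real.log (((fib S v (v ω)).image γ).card : ℝ) ≤
          Real.log (Real.exp (-D0) * G.card) := Real.log_le_log h1 hω.2.le
      rw [Real.log_mul (Real.exp_pos _).ne' (by linarith), Real.log_exp] at h3
      linarith
    · intro ω hω _
      have := Real.log_le_log (hpos ω hω) (hle ω hω)
      linarith
  rw [Finset.sum_sub_distrib, Finset.sum_const, nsmul_eq_mul] at hbad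
  linarith

end Pool.Agent.Helper70.SK
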