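import Pool.Agent.Helper70.SK.Stmts3

set_option autoImplicit false

/-! MP_b1773a_an, module ZJ: lower bound at the root of the tree of cells. -/

namespace Pool.Agent.Helper70.SK

open Finset Pool.Agent.Helper70.DK MeasureTheory

/-- the state of `χ` at level `i` -/
def zj_st {m : ℕ} (B n : ℕ) (al : (Fin m → ℤ) → Fin m → ℤ) (i : ℕ) (χ : Fin m → ℤ) : St m :=
  (cl B (n - i) χ, cl B (n - i) (al χ))

/-- the digit of `χ` between level `i` and `i + 1` -/
def zj_dg {m : ℕ} (B n : ℕ) (i : ℕ) (χ : Fin m → ℤ) : Fin m → ℤ :=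
  fun c => cl B (n - (i + 1)) χ c - B * cl B (n - i) χ c

theorem zj_cl {m : ℕ} (B n i : ℕ) (hi : i < n) (y : Fin m → ℤ) :
    cl B 1 (cl B (n - (i + 1)) y) = cl B (n - i) y := by
  funext c
  have h : n - i = (n - (i + 1)) + 1 := by omega
  rw [h]
  simp only [cl]
  rw [Int.ediv_ediv_of_nonneg (by positivity), ← pow_add]

theorem zj_mem_Stt {m : ℕ} (B n : ℕ) (X0 : Finset (Fin m → ℤ)) (al : (Fin m → ℤ) → Fin m → ℤ)
    (i : ℕ) (s : St m) : s ∈ Stt B n X0 al i ↔ ∃ χ ∈ X0, zj_st B n al i χ = s := by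
  simp only [Stt, Finset.mem_image, zj_st]

theorem zj_mem_Chd {m : ℕ} (B n : ℕ) (X0 : Finset (Fin m → ℤ)) (al : (Fin m → ℤ) → Fin m → ℤ)
    (i : ℕ) (s : St m) (d : Fin m → ℤ) (s' : St m) : s' ∈ Chd B n X0 al i s d ↔
      s' ∈ Stt B n X0 al (i + 1) ∧ s'.1 = (fun c => B * s.1 c + d c) ∧ cl B 1 s'.2 = s.2 := by
  simp only [Chd, Finset.mem_filter]

theorem zj_dg_mem {m : ℕ} (B n i : ℕ) (hB : 2 ≤ B) (hi : i < n) (χ : Fin m → ℤ) :
    zj_dg B n i χ ∈ gr m B := by
  have hB' : (0 : ℤ) < B := by exact_mod_cast (by omega : 0 < B)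
  rw [gr, Fintype.mem_piFinset]
  intro c
  have h := congrFun (zj_cl B n i hi χ) c
  rw [Finset.mem_Ico]
  simp only [zj_dg]
  rw [← h]
  simp only [cl]
  rw [pow_one]
  have h1 := Int.emod_nonneg (χ c / (B : ℤ) ^ (n - (i + 1))) hB'.ne'
  have h2 := Int.emod_lt_of_pos (χ c / (B : ℤ) ^ (n - (i + 1))) hB'
  have h3 := Int.emod_def (χ c / (B : ℤ) ^ (n - (i + 1))) (B : ℤ)
  constructor <;> linarith

theorem zj_child {m : ℕ} (B n i : ℕ) (X0 : Finset (Fin m → ℤ)) (al : (Fin m → ℤ) → Fin m → ℤ)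
    (hi : i < n) (χ : Fin m → ℤ) (hχ : χ ∈ X0) :
    zj_st B n al (i + 1) χ ∈ Chd B n X0 al i (zj_st B n al i χ) (zj_dg B n i χ) := by
  rw [zj_mem_Chd]
  refine ⟨(zj_mem_Stt _ _ _ _ _ _).mpr ⟨χ, hχ, rfl⟩, ?_, ?_⟩
  · funext c
    simp only [zj_st, zj_dg]
    ring
  · simp only [zj_st]
    exact zj_cl B n i hi (al χ)

/-- the number of children of the state of `χ` with the digit of `χ` -/
noncomputable def zj_V {m : ℕ} (B n : ℕ) (X0 : Finset (Fin m → ℤ)) (al : (Fin m → ℤ) → Fin m → ℤ)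
    (i : ℕ) (χ : Fin m → ℤ) : ℝ :=
  ((Chd B n X0 al i (zj_st B n al i χ) (zj_dg B n i χ)).card : ℝ)

/-- the weight of `χ` below the level `n - r` -/
noncomputable def zj_W {m : ℕ} (B n : ℕ) (X0 : Finset (Fin m → ℤ)) (al : (Fin m → ℤ) → Fin m → ℤ) :
    ℕ → (Fin m → ℤ) → ℝ
  | 0, _ => 1
  | r + 1, χ => zj_W B n X0 al r χ / zj_V B n X0 al (n - (r + 1)) χ

theorem zj_W_nonneg {m : ℕ} (B n : ℕ) (X0 : Finset (Fin m → ℤ)) (al : (Fin m → ℤ) → Fin m → ℤ)
    (r : ℕ) (χ : Fin m → ℤ) : 0 ≤ zj_W B n X0 al r χ := by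
  induction r with
  | zero => simp [zj_W]
  | succ r ih =>
    simp only [zj_W]
    exact div_nonneg ih (Nat.cast_nonneg _)

theorem zj_V_pos {m : ℕ} (B n : ℕ) (X0 : Finset (Fin m → ℤ)) (al : (Fin m → ℤ) → Fin m → ℤ)
    (i : ℕ) (hi : i < n) (χ : Fin m → ℤ) (hχ : χ ∈ X0) : 0 < zj_V B n X0 al i χ := by
  have h := zj_child B n i X0 al hi χ hχ
  rw [zj_V]
  exact_mod_cast Finset.card_pos.mpr ⟨_, h⟩

/-- the sum of the weights is at most `Zr` -/
theorem zj_sum {m : ℕ} (B n : ℕ) (X0 : Finset (Fin m → ℤ)) (al : (Fin m → ℤ) → Fin m → ℤ)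
    (hB : 2 ≤ B) (r : ℕ) (hr : r ≤ n) : ∀ s : St m,
    ∑ χ ∈ X0.filter (fun χ => zj_st B n al (n - r) χ = s), zj_W B n X0 al r χ ≤
      (Zr B n X0 al r s : ℝ) := by
  classical
  induction r with
  | zero =>
    intro s
    simp only [zj_W, Zr, NNReal.coe_one, Finset.sum_const, nsmul_eq_mul, mul_one]
    have h : (X0.filter (fun χ => zj_st B n al (n - 0) χ = s)).card ≤ 1 := by
      rw [Finset.card_le_one]
      intro a ha b hb
      rw [Finset.mem_filter] at ha hb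
      have h1 := ha.2.trans hb.2.symm
      simp only [zj_st, Prod.mk.injEq] at h1
      have h2 := h1.1
      funext c
      have h3 := congrFun h2 c
      simp only [cl, Nat.sub_zero, Nat.sub_self, pow_zero, Int.ediv_one] at h3
      exact h3
    exact_mod_cast h
  | succ r ih =>
    intro s
    have ih' := ih (by omega)
    obtain ⟨i, hi⟩ : ∃ i, i = n - (r + 1) := ⟨_, rfl⟩
    have hin : i < n := by omega
    have hi1 : n - r = i + 1 := by omega
    rw [hi1] at ih'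
    have hmap : ∀ χ ∈ X0.filter (fun χ => zj_st B n al i χ = s), zj_dg B n i χ ∈ gr m B :=
      fun χ _ => zj_dg_mem B n i hB hin χ
    rw [← hi]
    rw [← Finset.sum_fiberwise_of_maps_to hmap]
    simp only [Zr]
    rw [← hi]
    push_cast
    apply Finset.sum_le_sum
    intro d hd
    -- the terms with the digit `d`
    obtain ⟨F, hF⟩ : ∃ F, F = (X0.filter (fun χ => zj_st B n al i χ = s)).filter
      (fun χ => zj_dg B n i χ = d) := ⟨_, rfl⟩
    rw [← hF]
    obtain ⟨K, hK⟩ : ∃ K : Finset (St m), K = Chd B n X0 al i s d := ⟨_, rfl⟩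
    have hFmem : ∀ χ ∈ F, χ ∈ X0 ∧ zj_st B n al i χ = s ∧ zj_dg B n i χ = d := by
      intro χ hχ
      rw [hF, Finset.mem_filter, Finset.mem_filter] at hχ
      exact ⟨hχ.1.1, hχ.1.2, hχ.2⟩
    have hKm : ∀ χ ∈ F, zj_st B n al (i + 1) χ ∈ K := by
      intro χ hχ
      obtain ⟨h1, h2, h3⟩ := hFmem χ hχ
      have h := zj_child B n i X0 al hin χ h1
      rw [h2, h3] at h
      rw [hK]
      exact h
    have e1 : ∀ χ ∈ F, zj_W B n X0 al (r + 1) χ = zj_W B n X0 al r χ / (K.card : ℝ) := by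
      intro χ hχ
      obtain ⟨h1, h2, h3⟩ := hFmem χ hχ
      simp only [zj_W]
      rw [← hi, zj_V, h2, h3, ← hK]
    rw [Finset.sum_congr rfl e1, ← Finset.sum_div, ← hK]
    rcases Finset.eq_empty_or_nonempty K with hKe | hKe
    · rw [hKe]
      simp
    have hKp : (0 : ℝ) < K.card := by exact_mod_cast Finset.card_pos.mpr hKe
    rw [div_le_iff₀ hKp]
    calc ∑ χ ∈ F, zj_W B n X0 al r χ
        = ∑ s' ∈ K, ∑ χ ∈ F.filter (fun χ => zj_st B n al (i + 1) χ = s'), zj_W B n X0 al r χ :=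
          (Finset.sum_fiberwise_of_maps_to hKm _).symm
      _ ≤ ∑ s' ∈ K, (Zr B n X0 al r s' : ℝ) := by
          apply Finset.sum_le_sum
          intro s' hs'
          refine le_trans ?_ (ih' s')
          apply Finset.sum_le_sum_of_subset_of_nonneg
          · intro χ hχ
            rw [Finset.mem_filter] at hχ ⊢
            exact ⟨(hFmem χ hχ.1).1, hχ.2⟩
          · intro χ _ _
            exact zj_W_nonneg B n X0 al r χ
      _ ≤ ∑ s' ∈ K, ((K.sup (Zr B n X0 al r) : NNReal) : ℝ) := by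
          apply Finset.sum_le_sum
          intro s' hs'
          exact_mod_cast Finset.le_sup (f := Zr B n X0 al r) hs'
      _ = ((K.sup (Zr B n X0 al r) : NNReal) : ℝ) * K.card := by
          rw [Finset.sum_const, nsmul_eq_mul, mul_comm]

/-- fibres of `cl` -/
theorem zj_fib {m : ℕ} (B t : ℕ) (hB : 2 ≤ B) (X0 : Finset (Fin m → ℤ)) (w : Fin m → ℤ) :
    ((X0.filter (fun χ => cl B t χ = w)).card : ℝ) ≤ (B : ℝ) ^ (m * t) := by
  classical
  have hBt : (0 : ℤ) < (B : ℤ) ^ t := by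
    have : (0 : ℤ) < B := by exact_mod_cast (by omega : 0 < B)
    positivity
  have hsub : X0.filter (fun χ => cl B t χ = w) ⊆
      Fintype.piFinset (fun c => Finset.Ico (w c * (B : ℤ) ^ t) ((w c + 1) * (B : ℤ) ^ t)) := by
    intro χ hχ
    rw [Finset.mem_filter] at hχ
    rw [Fintype.mem_piFinset]
    intro c
    have h := congrFun hχ.2 c
    simp only [cl] at h
    rw [Finset.mem_Ico]
    have h1 := Int.emod_nonneg (χ c) hBt.ne'
    have h2 := Int.emod_lt_of_pos (χ c) hBt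
    have h3 := Int.emod_def (χ c) ((B : ℤ) ^ t)
    rw [h] at h3
    constructor
    · nlinarith
    · nlinarith
  have hc : (Fintype.piFinset (fun c : Fin m =>
      Finset.Ico (w c * (B : ℤ) ^ t) ((w c + 1) * (B : ℤ) ^ t))).card = (B ^ t) ^ m := by
    rw [Fintype.card_piFinset]
    have : ∀ c : Fin m, (Finset.Ico (w c * (B : ℤ) ^ t) ((w c + 1) * (B : ℤ) ^ t)).card = B ^ t := by
      intro c
      rw [Int.card_Ico]
      have : (w c + 1) * (B : ℤ) ^ t - w c * (B : ℤ) ^ t = ((B ^ t : ℕ) : ℤ) := by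
        push_cast; ring
      rw [this, Int.toNat_natCast]
    rw [Finset.prod_congr rfl (fun c _ => this c), Finset.prod_const, Finset.card_univ,
      Fintype.card_fin]
  have h := Finset.card_le_card hsub
  rw [hc] at h
  calc ((X0.filter (fun χ => cl B t χ = w)).card : ℝ) ≤ (((B ^ t) ^ m : ℕ) : ℝ) := by
        exact_mod_cast h
    _ = (B : ℝ) ^ (m * t) := by push_cast; rw [← pow_mul, mul_comm m t]

/-- average number of children -/
theorem zj_avg {m : ℕ} (B n : ℕ) (C : ℝ) (X0 : Finset (Fin m → ℤ))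
    (al : (Fin m → ℤ) → Fin m → ℤ) (hB : 2 ≤ B) (i : ℕ) (hi : i < n)
    (hS : ((Stt B n X0 al (i + 1)).card : ℝ) ≤ C * (B : ℝ) ^ (m * (i + 1))) :
    ∑ χ ∈ X0, zj_V B n X0 al i χ ≤ C * (B : ℝ) ^ (m * n) := by
  classical
  obtain ⟨T, hT⟩ : ∃ T, T = Stt B n X0 al (i + 1) := ⟨_, rfl⟩
  have h1 : ∀ χ ∈ X0, zj_V B n X0 al i χ ≤
      ∑ s' ∈ T, (if cl B (n - (i + 1)) χ = s'.1 then (1 : ℝ) else 0) := by
    intro χ hχ
    rw [← Finset.sum_filter, Finset.sum_const, nsmul_eq_mul, mul_one, zj_V]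
    have hsub : Chd B n X0 al i (zj_st B n al i χ) (zj_dg B n i χ) ⊆
        T.filter (fun s' => cl B (n - (i + 1)) χ = s'.1) := by
      intro s' hs'
      rw [zj_mem_Chd] at hs'
      rw [Finset.mem_filter, hT]
      refine ⟨hs'.1, ?_⟩
      rw [hs'.2.1]
      funext c
      simp only [zj_st, zj_dg]
      ring
    exact_mod_cast Finset.card_le_card hsub
  have hB0 : (0 : ℝ) ≤ (B : ℝ) ^ (m * (n - (i + 1))) := by positivity
  calc ∑ χ ∈ X0, zj_V B n X0 al i χ
      ≤ ∑ χ ∈ X0, ∑ s' ∈ T, (if cl B (n - (i + 1)) χ = s'.1 then (1 : ℝ) else 0) :=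
        Finset.sum_le_sum h1
    _ = ∑ s' ∈ T, ∑ χ ∈ X0, (if cl B (n - (i + 1)) χ = s'.1 then (1 : ℝ) else 0) :=
        Finset.sum_comm
    _ ≤ ∑ s' ∈ T, (B : ℝ) ^ (m * (n - (i + 1))) := by
        apply Finset.sum_le_sum
        intro s' _
        rw [← Finset.sum_filter, Finset.sum_const, nsmul_eq_mul, mul_one]
        exact zj_fib B (n - (i + 1)) hB X0 s'.1
    _ = (T.card : ℝ) * (B : ℝ) ^ (m * (n - (i + 1))) := by
        rw [Finset.sum_const, nsmul_eq_mul]
    _ ≤ (C * (B : ℝ) ^ (m * (i + 1))) * (B : ℝ) ^ (m * (n - (i + 1))) := by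
        rw [hT]
        exact mul_le_mul_of_nonneg_right hS hB0
    _ = C * (B : ℝ) ^ (m * n) := by
        rw [mul_assoc, ← pow_add, ← mul_add]
        congr 3
        omega

/-- exponential lower bound for the weights -/
theorem zj_exp {m : ℕ} (B n : ℕ) (c : ℝ) (X0 : Finset (Fin m → ℤ))
    (al : (Fin m → ℤ) → Fin m → ℤ) (hc : 0 < c) (χ : Fin m → ℤ) (hχ : χ ∈ X0) (r : ℕ)
    (hr : r ≤ n) :
    (1 / c) ^ r * Real.exp (∑ j ∈ range r, (1 - zj_V B n X0 al (n - (j + 1)) χ / c)) ≤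
      zj_W B n X0 al r χ := by
  induction r with
  | zero => simp [zj_W]
  | succ r ih =>
    have ih' := ih (by omega)
    have hV := zj_V_pos B n X0 al (n - (r + 1)) (by omega) χ hχ
    obtain ⟨v, hv⟩ : ∃ v, v = zj_V B n X0 al (n - (r + 1)) χ := ⟨_, rfl⟩
    rw [← hv] at hV
    rw [Finset.sum_range_succ, Real.exp_add]
    simp only [zj_W]
    rw [← hv]
    have h1 : Real.exp (1 - v / c) ≤ c / v := by
      have h2 : v / c ≤ Real.exp (v / c - 1) := by
        have := Real.add_one_le_exp (v / c - 1)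
        linarith
      have h3 : Real.exp (1 - v / c) * Real.exp (v / c - 1) = 1 := by
        rw [← Real.exp_add]
        ring_nf
        exact Real.exp_zero
      have h4 : Real.exp (1 - v / c) * (v / c) ≤ 1 :=
        (mul_le_mul_of_nonneg_left h2 (Real.exp_pos (1 - v / c)).le).trans h3.le
      rw [le_div_iff₀ hV]
      have h5 : Real.exp (1 - v / c) * (v / c) * c = Real.exp (1 - v / c) * v := by
        field_simp
      have h6 := mul_le_mul_of_nonneg_right h4 hc.le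
      rw [h5] at h6
      linarith
    have hE : 0 ≤ Real.exp (∑ j ∈ range r, (1 - zj_V B n X0 al (n - (j + 1)) χ / c)) :=
      (Real.exp_pos _).le
    have hcr : 0 ≤ (1 / c) ^ r := by positivity
    calc (1 / c) ^ (r + 1) * (Real.exp (∑ j ∈ range r, (1 - zj_V B n X0 al (n - (j + 1)) χ / c)) *
          Real.exp (1 - v / c))
        ≤ (1 / c) ^ (r + 1) * (Real.exp (∑ j ∈ range r,
          (1 - zj_V B n X0 al (n - (j + 1)) χ / c)) * (c / v)) := by
          apply mul_le_mul_of_nonneg_left _ (by positivity)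
          exact mul_le_mul_of_nonneg_left h1 hE
      _ = ((1 / c) ^ r * Real.exp (∑ j ∈ range r, (1 - zj_V B n X0 al (n - (j + 1)) χ / c))) / v := by
          rw [pow_succ]
          field_simp
      _ ≤ zj_W B n X0 al r χ / v := by
          exact div_le_div_of_nonneg_right ih' hV.le

theorem st_ZJ : ST_ZJ := by
  classical
  intro m B n C lam0 X0 al hB hC hl0 hl1 hX0 hX0c hSt
  have hBpos : (0 : ℝ) < B := by exact_mod_cast (by omega : 0 < B)
  have hBp : (0 : ℝ) < (B : ℝ) ^ (m * n) := by positivity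
  have hC0 : 0 < C := by linarith
  have hXc : (0 : ℝ) < X0.card := lt_of_lt_of_le (by positivity) hX0c
  have hXne : X0.Nonempty := Finset.card_pos.mp (by exact_mod_cast hXc)
  have hSne : (Stt B n X0 al 0).Nonempty := by
    obtain ⟨χ, hχ⟩ := hXne
    exact ⟨_, (zj_mem_Stt _ _ _ _ _ _).mpr ⟨χ, hχ, rfl⟩⟩
  obtain ⟨s0, hs0, hmax⟩ := Finset.exists_max_image (Stt B n X0 al 0) (Zr B n X0 al n) hSne
  refine ⟨s0, hs0, ?_⟩
  obtain ⟨c, hc⟩ : ∃ c, c = C / lam0 := ⟨_, rfl⟩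
  have hc0 : 0 < c := by rw [hc]; positivity
  -- upper bound of the sum of the weights
  have hup : ∑ χ ∈ X0, zj_W B n X0 al n χ ≤ C * (Zr B n X0 al n s0 : ℝ) := by
    have hmap : ∀ χ ∈ X0, zj_st B n al 0 χ ∈ Stt B n X0 al 0 :=
      fun χ hχ => (zj_mem_Stt _ _ _ _ _ _).mpr ⟨χ, hχ, rfl⟩
    have h0 := hSt 0 (Nat.zero_le n)
    rw [mul_zero, pow_zero, mul_one] at h0
    calc ∑ χ ∈ X0, zj_W B n X0 al n χ
        = ∑ s ∈ Stt B n X0 al 0, ∑ χ ∈ X0.filter (fun χ => zj_st B n al 0 χ = s),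
            zj_W B n X0 al n χ := (Finset.sum_fiberwise_of_maps_to hmap _).symm
      _ ≤ ∑ s ∈ Stt B n X0 al 0, (Zr B n X0 al n s0 : ℝ) := by
          apply Finset.sum_le_sum
          intro s hs
          have h := zj_sum B n X0 al hB n le_rfl s
          rw [Nat.sub_self] at h
          exact h.trans (by exact_mod_cast hmax s hs)
      _ = ((Stt B n X0 al 0).card : ℝ) * (Zr B n X0 al n s0 : ℝ) := by
          rw [Finset.sum_const, nsmul_eq_mul]
      _ ≤ C * (Zr B n X0 al n s0 : ℝ) :=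
          mul_le_mul_of_nonneg_right h0 (NNReal.coe_nonneg _)
  -- lower bound
  have hlow : (1 / c) ^ n * (X0.card : ℝ) ≤ ∑ χ ∈ X0, zj_W B n X0 al n χ := by
    have h1 : ∀ χ ∈ X0, (1 / c) ^ n *
        (1 + ∑ j ∈ range n, (1 - zj_V B n X0 al (n - (j + 1)) χ / c)) ≤ zj_W B n X0 al n χ := by
      intro χ hχ
      refine le_trans ?_ (zj_exp B n c X0 al hc0 χ hχ n le_rfl)
      apply mul_le_mul_of_nonneg_left _ (by positivity)
      have := Real.add_one_le_exp (∑ j ∈ range n, (1 - zj_V B n X0 al (n - (j + 1)) χ / c))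
      linarith
    refine le_trans ?_ (Finset.sum_le_sum h1)
    rw [← Finset.mul_sum]
    apply mul_le_mul_of_nonneg_left _ (by positivity)
    rw [Finset.sum_add_distrib, Finset.sum_const, nsmul_eq_mul, mul_one, Finset.sum_comm]
    have h2 : ∀ j ∈ range n, 0 ≤ ∑ χ ∈ X0, (1 - zj_V B n X0 al (n - (j + 1)) χ / c) := by
      intro j hj
      rw [Finset.mem_range] at hj
      rw [Finset.sum_sub_distrib, Finset.sum_const, nsmul_eq_mul, mul_one, ← Finset.sum_div]
      have h3 := zj_avg B n C X0 al hB (n - (j + 1)) (by omega)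
        (hSt (n - (j + 1) + 1) (by omega))
      have h4 : (∑ χ ∈ X0, zj_V B n X0 al (n - (j + 1)) χ) / c ≤ X0.card := by
        rw [div_le_iff₀ hc0]
        refine h3.trans ?_
        have h5 : (X0.card : ℝ) * c = C * ((X0.card : ℝ) / lam0) := by rw [hc]; ring
        rw [h5]
        apply mul_le_mul_of_nonneg_left _ hC0.le
        rw [le_div_iff₀ hl0]
        linarith
      linarith
    have h3 := Finset.sum_nonneg h2
    linarith
  -- conclusion
  have hfin : (1 / c) ^ n * (lam0 * (B : ℝ) ^ (m * n)) ≤ C * (Zr B n X0 al n s0 : ℝ) :=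
    (mul_le_mul_of_nonneg_left hX0c (by positivity)).trans (hlow.trans hup)
  have hcinv : 1 / c = lam0 / C := by rw [hc]; field_simp
  rw [hcinv] at hfin
  have hz : (lam0 / C) ^ n * (lam0 * (B : ℝ) ^ (m * n)) / C ≤ (Zr B n X0 al n s0 : ℝ) := by
    rw [div_le_iff₀ hC0]
    linarith
  refine le_trans ?_ hz
  have h7 : lam0 * (lam0 / C) ^ (n + 1) * (B : ℝ) ^ (m * n) =
      lam0 * ((lam0 / C) ^ n * (lam0 * (B : ℝ) ^ (m * n)) / C) := by
    rw [pow_succ]; ring
  rw [h7]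
  have h8 : 0 ≤ (lam0 / C) ^ n * (lam0 * (B : ℝ) ^ (m * n)) / C := by positivity
  calc lam0 * ((lam0 / C) ^ n * (lam0 * (B : ℝ) ^ (m * n)) / C)
      ≤ 1 * ((lam0 / C) ^ n * (lam0 * (B : ℝ) ^ (m * n)) / C) :=
        mul_le_mul_of_nonneg_right hl1 h8
    _ = _ := one_mul _

end Pool.Agent.Helper70.SK
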